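import Pool.Agent.W582.WS.FDT
import Pool.Agent.W95.WS.SQ
import Pool.Agent.W950.WS.IB
import Pool.Agent.W870.WS.DF
import Pool.Agent.W784.WS.R1
import Pool.Agent.W706.WS.R2
import Pool.Agent.W363.WS.AV
import Pool.Agent.W563.WS.EE
import Pool.Agent.W168.WS.ID
import Pool.Agent.W310.WS.JL
import Pool.Agent.W5.WS.BC
import Pool.Agent.W617.WS.MAIN
import Pool.Agent.W779.WS.ALL

/-!
# Waring's problem with almost all shifts: `2 k + 1` variables
-/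

set_option autoImplicit false

open MeasureTheory

namespace Pool.Agent.Results.MP_efcac8_nt.AlmostAllShifts

/-- Let `k ≥ 2` and `s ≥ 2 k + 1`. For Lebesgue almost every shift vector `θ ∈ ℝ ^ s`, every large
real number `M` is a sum of `s` shifted `k`-th powers `(x_i + θ_i) ^ k` with integers `x_i` (as
large as we like) up to an error less than `M ^ (-δ)`, for every `δ < (s - 2 k) / (2 k)`. -/
theorem result (k s : ℕ) (δ : ℝ) (hk : 2 ≤ k) (hs : 2 * k < s)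
    (hδ : δ < ((s : ℝ) - 2 * k) / (2 * k)) :
    ∀ᵐ θ : Fin s → ℝ, ∀ L : ℤ, ∃ M₀ : ℝ, ∀ M : ℝ, M₀ ≤ M → ∃ x : Fin s → ℤ,
      (∀ i, L ≤ x i) ∧ |(∑ i, ((x i : ℝ) + θ i) ^ k) - M| < M ^ (-δ) := by
  have hfdt : Pool.Agent.W203.WS.S_FDT := Pool.Agent.W582.WS.t_FDT
  have hsq : Pool.Agent.W203.WS.S_SQ := Pool.Agent.W95.WS.t_SQ hfdt
  have hib : Pool.Agent.W203.WS.S_IB := Pool.Agent.W950.WS.t_IB hfdt
  have hdf : Pool.Agent.W203.WS.S_DF := Pool.Agent.W870.WS.t_DF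
  have hr1 : Pool.Agent.W203.WS.S_R1 := Pool.Agent.W784.WS.t_R1 hib hdf
  have hr2 : Pool.Agent.W203.WS.S_R2 := Pool.Agent.W706.WS.t_R2 hsq
  have hee : Pool.Agent.W203.WS.S_EE := Pool.Agent.W563.WS.t_EE hr1 hr2 Pool.Agent.W363.WS.t_AV
  have hbc : Pool.Agent.W203.WS.S_BC :=
    Pool.Agent.W5.WS.t_BC hee Pool.Agent.W168.WS.t_ID Pool.Agent.W310.WS.t_JL
  exact Pool.Agent.W779.WS.t_ALL (Pool.Agent.W617.WS.t_MAIN hbc) k s δ hk hs hδ

end Pool.Agent.Results.MP_efcac8_nt.AlmostAllShifts
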